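import Pool.Agent.Work.MP_e0d07f_co.Hedge.Alg

namespace Pool.Agent.Results.MP_e0d07f_co.Algebraic

open Filter Topology Pool.Agent.Work.MP_e0d07f_co

/-- For every irrational real algebraic number `α` there is a finite connected graph `F` whose
weak saturation limit `lim wsat(n, F) / n` exists, is irrational and has the form `r α + s`
with `r, s` rational. -/
theorem result : ∀ α : ℝ, IsAlgebraic ℚ α → Irrational α →
    ∃ (k : ℕ) (F : SimpleGraph (Fin k)), F.Connected ∧
      ∃ w : ℝ, Irrational w ∧ (∃ r s : ℚ, w = (r : ℝ) * α + (s : ℝ)) ∧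
        Tendsto (fun n : ℕ => (wsat F n : ℝ) / (n : ℝ)) atTop (nhds w) := by
  intro α hα hi
  obtain ⟨k, F, hF, r, s, hr, ht⟩ := Hedge.alg_main α hα
  exact ⟨k, F, hF, _, (hi.ratCast_mul hr).add_ratCast s, ⟨r, s, rfl⟩, ht⟩

end Pool.Agent.Results.MP_e0d07f_co.Algebraic
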